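import Mathlib
import Pool.Agent.H.MP_8d213d_nt.A

open Filter Polynomial

namespace Pool.Agent.Results.MP_b81a64_nt.No

open Pool.Agent.H.MP_8d213d_nt

theorem result : ¬ ∀ α : ℝ, 1 < α → IsIntegral ℤ α →
    IsClosed {t : ℝ | ∃ ξ : ℝ,
      limsup (fun n : ℕ => |ξ * α ^ n - round (ξ * α ^ n)|) atTop = t} := by
  classical
  intro H
  obtain ⟨r, hr0, hr⟩ : ∃ r : ℝ, 0 < r ∧ r ^ 2 = 13 :=
    ⟨√13, by positivity, Real.sq_sqrt (by norm_num)⟩
  have r1 : 3.6 < r := by nlinarith
  have r2 : r < 3.7 := by nlinarith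
  obtain ⟨τ, hτ⟩ : ∃ τ : ℝ, τ = (1 + r) / 2 := ⟨_, rfl⟩
  have t1 : 2.3 < τ := by linarith
  have t2 : τ < 2.35 := by linarith
  have t3 : τ ^ 2 = τ + 3 := by rw [hτ]; nlinarith
  obtain ⟨w, hw0, hw⟩ : ∃ w : ℝ, 0 < w ∧ w ^ 2 = τ ^ 2 - 4 :=
    ⟨√(τ ^ 2 - 4), Real.sqrt_pos.2 (by nlinarith), Real.sq_sqrt (by nlinarith)⟩
  have w2 : w < 1.2 := by nlinarith
  obtain ⟨α, hα⟩ : ∃ α : ℝ, α = (τ + w) / 2 := ⟨_, rfl⟩
  have a1 : 1 < α := by linarith
  have a2 : α < 2 := by linarith
  have a3 : α ^ 2 - τ * α + 1 = 0 := by rw [hα]; nlinarith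
  have a4 : α ^ 4 - α ^ 3 - α ^ 2 - α + 1 = 0 := by
    have : α ^ 4 - α ^ 3 - α ^ 2 - α + 1
        = (α ^ 2 - τ * α + 1) * (α ^ 2 - (1 - τ) * α + 1) := by
      linear_combination (α ^ 2) * t3
    rw [this, a3, zero_mul]
  have hi : IsIntegral ℤ α := by
    refine ⟨X ^ 4 - X ^ 3 - X ^ 2 - X + 1, by monicity!, ?_⟩
    simpa using a4
  have hq : IsIntegral ℚ α := hi.tower_top
  have hdvd : minpoly ℚ α ∣ X ^ 4 - X ^ 3 - X ^ 2 - X + 1 :=
    minpoly.dvd ℚ α (by simpa using a4)
  have hroot : ∀ β : ℂ, aeval β (minpoly ℚ α) = 0 →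
      β = α ∨ β = ((τ - α : ℝ) : ℂ) ∨ ‖β‖ = 1 := by
    intro β hβ
    have h := aeval_eq_zero_of_dvd_aeval_eq_zero hdvd hβ
    simp only [map_add, map_sub, map_pow, aeval_X, map_one] at h
    have t3' : (τ : ℂ) ^ 2 = τ + 3 := by exact_mod_cast t3
    have a3' : (α : ℂ) ^ 2 - τ * α + 1 = 0 := by exact_mod_cast a3
    have : (β - α) * (β - (τ - α)) * (β ^ 2 - (1 - τ) * β + 1) = 0 := by
      linear_combination h - β ^ 2 * t3' - (β ^ 2 - (1 - τ) * β + 1) * a3'
    rcases mul_eq_zero.1 this with h2 | h2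
    · rcases mul_eq_zero.1 h2 with h3 | h3
      · exact Or.inl (sub_eq_zero.1 h3)
      · exact Or.inr (Or.inl (by push_cast; exact sub_eq_zero.1 h3))
    · refine Or.inr (Or.inr ?_)
      have hre := congrArg Complex.re h2
      have him := congrArg Complex.im h2
      simp [pow_two] at hre him
      have : β.re ^ 2 + β.im ^ 2 = 1 := by
        have h5 : β.im * (2 * β.re - (1 - τ)) = 0 := by linarith
        rcases mul_eq_zero.1 h5 with h6 | h6
        · rw [h6] at hre
          nlinarith [sq_nonneg (2 * β.re - (1 - τ))]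
        · have : 1 - τ = 2 * β.re := by linarith
          rw [this] at hre
          nlinarith
      have h7 : ‖β‖ ^ 2 = 1 := by
        rw [Complex.sq_norm, Complex.normSq_apply]; linarith
      nlinarith [norm_nonneg β]
  have b0 : 0 < τ - α := by nlinarith
  have b1 : τ - α < 1 := by nlinarith
  refine salem a1 hi ?_ ?_ (H α a1 hi)
  · intro β hβ hne
    rcases hroot β hβ with h | h | h
    · exact absurd h hne
    · rw [h, Complex.norm_real, Real.norm_eq_abs, abs_of_pos b0]
      exact b1.le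
    · exact h.le
  · by_contra hno
    obtain ⟨z, hz⟩ := psum hi 1
    have hsub : ((minpoly ℚ α).aroots ℂ).toFinset.erase (α : ℂ) ⊆ {((τ - α : ℝ) : ℂ)} := by
      intro β hβ
      rw [Finset.mem_erase, Multiset.mem_toFinset, mem_aroots] at hβ
      rcases hroot β hβ.2.2 with h | h | h
      · exact absurd h hβ.1
      · exact Finset.mem_singleton.2 h
      · exact absurd ⟨β, hβ.2.2, h⟩ hno
    rcases Finset.subset_singleton_iff.1 hsub with h | h
    · rw [h] at hz
      have : α = z := by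
        simp only [pow_one, Finset.sum_empty, add_zero] at hz
        exact_mod_cast hz
      rw [this] at a1 a2
      have c1 : 1 < z := by exact_mod_cast a1
      have c2 : z < 2 := by exact_mod_cast a2
      omega
    · rw [h] at hz
      have : τ = z := by
        simp only [pow_one, Finset.sum_singleton] at hz
        have : α + (τ - α) = z := by exact_mod_cast hz
        linarith
      have c1 : (2 : ℝ) < z := by linarith
      have c2 : (z : ℝ) < 3 := by linarith
      have c1 : 2 < z := by exact_mod_cast c1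
      have c2 : z < 3 := by exact_mod_cast c2
      omega

end Pool.Agent.Results.MP_b81a64_nt.No
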